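import Pool.Agent.Q200.HP.NDefs

/-!
# Motivic cohomology of hypersurfaces over finite fields: definitions
-/

open CategoryTheory MonoidalCategory

universe v u w w'

namespace Pool.Agent.Q200.HP

open Pool.Agent.Q28.HJ (pow)

/-- Motivic cohomology on a category `𝓜` of Chow motives, with the Lefschetz motive `L`. -/
structure Motivic (𝓜 : Type u) [Category.{v} 𝓜] [MonoidalCategory 𝓜] (L : 𝓜) where
  /-- the higher Chow group `CH^i(M, j)`, that is, the motivic cohomology `H^(2i-j)(M, ℚ(i))`, with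
  rational coefficients -/
  H : ℕ → ℕ → 𝓜 → Type w'
  [grp : ∀ j i M, AddCommGroup (H j i M)]
  [mod : ∀ j i M, Module ℚ (H j i M)]
  /-- a morphism of motives `g : M → N` induces `CH^i(M, j) → CH^i(N, j)` -/
  push : ∀ (j i : ℕ) {M N : 𝓜}, (M ⟶ N) → H j i M → H j i N
  /-- the twist `CH^i(M, j) → CH^(i+1)(M ⊗ L, j)` -/
  tw : ∀ (j i : ℕ) {M : 𝓜}, H j i M → H j (i + 1) (M ⊗ L)

attribute [instance] Motivic.grp Motivic.mod

namespace Motivic

variable {𝓜 : Type u} [Category.{v} 𝓜] [MonoidalCategory 𝓜] {L : 𝓜} (H : Motivic.{v, u, w'} 𝓜 L)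

/-- `CH^i(M, j) = 0` (with rational coefficients) -/
def Zero (j i : ℕ) (M : 𝓜) : Prop := ∀ x : H.H j i M, x = 0

/-- Known facts: functoriality, and the twist is injective (an isomorphism). -/
structure Laws [Preadditive 𝓜] : Prop where
  add : ∀ (j i : ℕ) {M N : 𝓜} (g : M ⟶ N) (x y : H.H j i M),
    H.push j i g (x + y) = H.push j i g x + H.push j i g y
  id : ∀ (j i : ℕ) {M : 𝓜} (x : H.H j i M), H.push j i (𝟙 M) x = x
  comp : ∀ (j i : ℕ) {M N P : 𝓜} (f : M ⟶ N) (g : N ⟶ P) (x : H.H j i M),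
    H.push j i (f ≫ g) x = H.push j i g (H.push j i f x)
  hom_add : ∀ (j i : ℕ) {M N : 𝓜} (f g : M ⟶ N) (x : H.H j i M),
    H.push j i (f + g) x = H.push j i f x + H.push j i g x
  tw_inj : ∀ (j i : ℕ) {M : 𝓜} (x y : H.H j i M), H.tw j i x = H.tw j i y → x = y

end Motivic

/-- Known fact: let `M` be a tensor product of primitive motives, of weight `N`, and
`x ∈ CH^i(M, j)`, `2 i ≠ N`. Take a finite field with `q` elements over which `M` and `x` are defined,
the Frobenius endomorphism `F` and its characteristic polynomial `P` on the cohomology of `M`, which is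
of degree `N`. Then `P(F)` is numerically trivial, `F` acts on `CH^i(-, j)` as the multiplication by
`q^i`, so `P(F)` maps `x` to `P(q^i) x`, and `P(q^i) ≠ 0` by the theorem of Deligne. -/
def NumMot.FrobOn {𝓜 : Type u} [Category.{v} 𝓜] [MonoidalCategory 𝓜] (T : NumMot.{v, u, w} 𝓜)
    (H : Motivic.{v, u, w'} 𝓜 T.L) : Prop :=
  ∀ {N : ℕ} {M : 𝓜}, T.IsProd N M → ∀ j i, 2 * i ≠ N → ∀ x : H.H j i M,
    ∃ (g : M ⟶ M) (c : ℚ), T.null g ∧ c ≠ 0 ∧ H.push j i g x = c • x

end Pool.Agent.Q200.HP
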