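import Pool.Agent.Q200.HP.Defs
import Pool.Agent.Q200.HS.Test

/-!
# Reduction to almost diagonal hypersurfaces in positive characteristic
-/

open CategoryTheory MonoidalCategory

universe v u w

namespace Pool.Agent.Q200.HP

open Pool.Agent.Q28.HJ (pow powAdd retRight retLeft retIso shuffle)
open Pool.Agent.Q200.HS (Covers covers_of_retract covers_self covers_mono covers_trans
  covers_tensor Passes)

variable {𝓜 : Type u} [Category.{v} 𝓜] [Preadditive 𝓜] [MonoidalCategory 𝓜]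
  {T : MotP.{v, u, w} 𝓜}

lemma two_le (hT : T.Facts) : 2 ≤ T.p + 1 := by
  have := hT.prime.two_le
  omega

lemma succ_coprime (p : ℕ) : (p + 1).Coprime p := by
  have h : Nat.Coprime 1 p := Nat.coprime_one_left p
  rw [Nat.add_comm]
  exact (Nat.coprime_add_self_left).2 h

/-- iterated suspensions -/
lemma susps (hT : T.Facts) {X : T.Hyp} (hd : 2 ≤ T.deg X) (k : ℕ) :
    ∃ W, Relation.ReflTransGen T.Susp X W ∧ T.deg W = T.deg X ∧
      T.dim W = T.dim X + 2 * k ∧ Nonempty (Retract (T.prim X ⊗ pow T.L k) (T.prim W)) := by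
  induction k with
  | zero => exact ⟨X, .refl, rfl, rfl, ⟨retIso (ρ_ _)⟩⟩
  | succ k ih =>
    obtain ⟨W, h, a2, a3, ⟨R⟩⟩ := ih
    obtain ⟨W', h'⟩ := hT.susp W (a2 ▸ hd)
    obtain ⟨b2, b3, ⟨Q⟩⟩ := hT.susp_prop W W' h'
    refine ⟨W', h.tail h', b2.trans a2, by omega, ⟨?_⟩⟩
    exact ((retIso (α_ _ _ _).symm).trans (retRight R T.L)).trans Q

/-- covers followed by iterated suspensions reach large pairs `(n, d)` -/
lemma reach (hT : T.Facts) (X : T.Hyp) {n d : ℕ} (hd : (T.p + 1) * T.deg X ∣ d) (hd0 : 0 < d)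
    (hdp : d.Coprime T.p) {k : ℕ} (hn : n = T.dim X + 2 * k) :
    ∃ X' W : T.Hyp, T.dim X' = T.dim X ∧
      Relation.ReflTransGen T.Susp X' W ∧ T.deg W = d ∧ T.dim W = n ∧
        Nonempty (Retract (T.prim X ⊗ pow T.L k) (T.prim W)) := by
  obtain ⟨e, he⟩ := hd
  have hpos := hT.deg_pos X
  have hp2 := two_le hT
  have he0 : 0 < (T.p + 1) * e := by
    rcases Nat.eq_zero_or_pos e with h0 | h0
    · rw [h0] at he; omega
    · exact Nat.mul_pos (by omega) h0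
  have hde : T.deg X * ((T.p + 1) * e) = d := by rw [he]; ring
  have hcop : ((T.p + 1) * e).Coprime T.p := by
    rw [← hde] at hdp
    exact Nat.Coprime.coprime_mul_left hdp
  obtain ⟨X', a2, a3, ⟨R⟩⟩ := hT.cover X _ he0 hcop
  have hd3 : 2 ≤ T.deg X' := by
    rw [a2]
    calc 2 ≤ 1 * (T.p + 1) := by omega
      _ ≤ T.deg X * ((T.p + 1) * e) := Nat.mul_le_mul hpos
        (Nat.le_mul_of_pos_right _ (Nat.pos_of_mul_pos_left he0))
  obtain ⟨W, b1, b2, b3, ⟨Q⟩⟩ := susps hT hd3 k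
  refine ⟨X', W, a3, b1, ?_, by omega, ⟨(retRight R _).trans Q⟩⟩
  rw [b2, a2, hde]

/-- products of hypersurfaces are dominated by hypersurfaces -/
lemma prod_retract [BraidedCategory 𝓜] (hT : T.Facts) {N : ℕ} {M : 𝓜} (h : T.IsProd N M) :
    ∃ D : ℕ, 0 < D ∧ D.Coprime T.p ∧ ∀ E : ℕ, 0 < E → E.Coprime T.p →
      ∃ (W : T.Hyp) (s : ℕ), T.deg W = D * E ∧
        T.dim W = N + 2 * s ∧ Nonempty (Retract (M ⊗ pow T.L s) (T.prim W)) := by
  induction h with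
  | one X =>
    refine ⟨T.deg X, hT.deg_pos X, hT.deg_coprime X, fun E hE hE' => ?_⟩
    obtain ⟨X', h2, h3, ⟨R⟩⟩ := hT.cover X E hE hE'
    exact ⟨X', 0, h2, by omega, ⟨(retIso (ρ_ _)).trans R⟩⟩
  | @tensor a b M N _ _ ih₁ ih₂ =>
    obtain ⟨D₁, hD₁, hc₁, H₁⟩ := ih₁
    obtain ⟨D₂, hD₂, hc₂, H₂⟩ := ih₂
    refine ⟨D₁ * D₂, Nat.mul_pos hD₁ hD₂, Nat.Coprime.mul_left hc₁ hc₂, fun E hE hE' => ?_⟩
    obtain ⟨W₁, s, a2, a3, ⟨R₁⟩⟩ := H₁ (D₂ * E) (Nat.mul_pos hD₂ hE) (Nat.Coprime.mul_left hc₂ hE')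
    obtain ⟨W₂, t, b2, b3, ⟨R₂⟩⟩ := H₂ (D₁ * E) (Nat.mul_pos hD₁ hE) (Nat.Coprime.mul_left hc₁ hE')
    obtain ⟨W, c2, c3, ⟨R⟩⟩ := hT.join W₁ W₂ (by rw [a2, b2]; ring)
    refine ⟨W, s + t + 1, by rw [c2, a2]; ring, by omega, ⟨?_⟩⟩
    have e₁ : (M ⊗ N) ⊗ pow T.L (s + t + 1) ≅ ((M ⊗ N) ⊗ pow T.L (s + t)) ⊗ T.L :=
      (α_ _ _ _).symm
    have e₂ : (M ⊗ N) ⊗ pow T.L (s + t) ≅ (M ⊗ pow T.L s) ⊗ (N ⊗ pow T.L t) :=
      (tensorLeft (M ⊗ N)).mapIso (powAdd T.L s t) ≪≫ (shuffle M _ N _).symm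
    have R₃ : Retract ((M ⊗ pow T.L s) ⊗ (N ⊗ pow T.L t)) (T.prim W₁ ⊗ T.prim W₂) :=
      (retRight R₁ _).trans (retLeft R₂ _)
    exact ((retIso e₁).trans (retRight ((retIso e₂).trans R₃) T.L)).trans R

/-- twisted products are dominated by hypersurfaces of all large dimensions -/
lemma retract_large [BraidedCategory 𝓜] (hT : T.Facts) {N : ℕ} {M : 𝓜}
    (hM : T.IsProd N M) : ∃ s₀ : ℕ, ∀ s, s₀ ≤ s → ∃ W : T.Hyp, T.dim W = N + 2 * s ∧
      Nonempty (Retract (M ⊗ pow T.L s) (T.prim W)) := by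
  obtain ⟨D, hD, hc, H⟩ := prod_retract hT hM
  have hp2 := two_le hT
  obtain ⟨W, s₀, h2, h3, ⟨R⟩⟩ := H (T.p + 1) (by omega) (succ_coprime _)
  refine ⟨s₀, fun s hs => ?_⟩
  obtain ⟨t, rfl⟩ := Nat.exists_eq_add_of_le hs
  have hd : 2 ≤ T.deg W := by
    rw [h2]
    calc 2 ≤ 1 * (T.p + 1) := by omega
      _ ≤ _ := Nat.mul_le_mul_right _ hD
  obtain ⟨W', -, -, b3, ⟨R'⟩⟩ := susps hT hd t
  refine ⟨W', by omega, ⟨?_⟩⟩
  have e : M ⊗ pow T.L (s₀ + t) ≅ (M ⊗ pow T.L s₀) ⊗ pow T.L t :=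
    (tensorLeft M).mapIso (powAdd T.L s₀ t) ≪≫ (α_ _ _ _).symm
  exact ((retIso e).trans (retRight R _)).trans R'

/-- the object is a direct summand of a twisted tensor product of primitive motives -/
def Piece (T : MotP.{v, u, w} 𝓜) (N : 𝓜) : Prop :=
  ∃ (n s : ℕ) (M : 𝓜), T.IsProd n M ∧ Nonempty (Retract N (M ⊗ pow T.L s))

lemma piece_pow (hT : T.Facts) (j : ℕ) : Piece T (pow T.L j) := by
  obtain ⟨Y, -, ⟨R⟩⟩ := hT.points
  exact ⟨_, j, _, .one Y, ⟨(retIso (λ_ _).symm).trans (retRight R _)⟩⟩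

omit [Preadditive 𝓜] in
lemma piece_tensor [BraidedCategory 𝓜] {A B : 𝓜} (hA : Piece T A) (hB : Piece T B) :
    Piece T (A ⊗ B) := by
  obtain ⟨n, s, M, h1, ⟨R⟩⟩ := hA
  obtain ⟨m, t, N, h2, ⟨Q⟩⟩ := hB
  refine ⟨n + m, s + t, M ⊗ N, .tensor h1 h2, ⟨?_⟩⟩
  have e : (M ⊗ pow T.L s) ⊗ (N ⊗ pow T.L t) ≅ (M ⊗ N) ⊗ pow T.L (s + t) :=
    shuffle M _ N _ ≪≫ (tensorLeft (M ⊗ N)).mapIso (powAdd T.L s t).symm
  exact ((retRight R _).trans (retLeft Q _)).trans (retIso e)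

/-- the motives in the class `Gen` are covered by pieces -/
lemma covers_gen [BraidedCategory 𝓜] [MonoidalPreadditive 𝓜] (hT : T.Facts) {M : 𝓜}
    (h : T.Gen M) : Covers (Piece T) M := by
  induction h with
  | mot X =>
    refine covers_mono (hT.split X) ?_
    rintro N (rfl | ⟨j, rfl⟩)
    · exact ⟨_, 0, _, .one X, ⟨retIso (ρ_ _).symm⟩⟩
    · exact piece_pow hT j
  | unit => exact covers_self (piece_pow hT 0)
  | lef =>
    have e : T.L ≅ pow T.L 1 := (λ_ _).symm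
    exact covers_of_retract (retIso e) (piece_pow hT 1)
  | tensor _ _ ih₁ ih₂ => exact covers_tensor ih₁ ih₂ (fun A B => piece_tensor)
  | sum N a b _ hab ih => exact covers_trans N a b ih hab

/-- tensor products of primitive motives are in the class `Gen` -/
lemma gen_isProd (hT : T.Facts) {N : ℕ} {M : 𝓜} (hM : T.IsProd N M) : T.Gen M := by
  induction hM with
  | one X =>
    obtain ⟨R⟩ := hT.summand X
    exact .sum (n := 1) (fun _ => T.mot X) (fun _ => R.i) (fun _ => R.r) (fun _ => .mot X)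
      (by simp)
  | tensor _ _ ih₁ ih₂ => exact .tensor ih₁ ih₂

lemma gen_pow (j : ℕ) : T.Gen (pow T.L j) := by
  induction j with
  | zero => exact .unit
  | succ j ih => exact .tensor ih .lef

lemma gen_retract {M N : 𝓜} (R : Retract M N) (hN : T.Gen N) : T.Gen M :=
  .sum (n := 1) (fun _ => N) (fun _ => R.i) (fun _ => R.r) (fun _ => hN) (by simp)

variable {P : ℕ → 𝓜 → Prop}

/-- from `M_W` for the almost diagonal `W` to `M_X ⊗ L^s` -/
lemma hyp_step (hP : Passes T.L P) (hT : T.Facts) (X : T.Hyp) {n d k s i : ℕ}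
    (hd : (T.p + 1) * T.deg X ∣ d) (hd0 : 0 < d) (hdp : d.Coprime T.p)
    (hn : n = T.dim X + 2 * (s + k))
    (h : ∀ X' W : T.Hyp, T.dim X' = T.dim X → Relation.ReflTransGen T.Susp X' W → T.deg W = d →
      T.dim W = n → P (i + k) (T.prim W)) : P i (T.prim X ⊗ pow T.L s) := by
  obtain ⟨X', W, h1, h2, h3, h4, ⟨R⟩⟩ := reach hT X hd hd0 hdp hn
  apply hP.untwists i k
  have e : (T.prim X ⊗ pow T.L s) ⊗ pow T.L k ≅ T.prim X ⊗ pow T.L (s + k) :=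
    α_ _ _ _ ≪≫ (tensorLeft _).mapIso (powAdd T.L s k).symm
  exact hP.retract _ ((retIso e).trans R) (h X' W h1 h2 h3 h4)

/-- from hypersurfaces to pieces -/
lemma piece_step [BraidedCategory 𝓜] (hP : Passes T.L P) (hT : T.Facts)
    (h : ∀ (X : T.Hyp) (s i : ℕ), P i (T.prim X ⊗ pow T.L s)) {N : 𝓜} (hN : Piece T N) (i : ℕ) :
    P i N := by
  obtain ⟨n, s, M, hM, ⟨R⟩⟩ := hN
  refine hP.retract i R ?_
  obtain ⟨D, -, -, H⟩ := prod_retract hT hM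
  obtain ⟨W, t, -, -, ⟨Q⟩⟩ := H 1 one_pos (Nat.coprime_one_left _)
  apply hP.untwists i t
  have e : (M ⊗ pow T.L s) ⊗ pow T.L t ≅ (M ⊗ pow T.L t) ⊗ pow T.L s :=
    α_ _ _ _ ≪≫ (tensorLeft M).mapIso (β_ _ _) ≪≫ (α_ _ _ _).symm
  exact hP.retract _ ((retIso e).trans (retRight Q _)) (h W s _)

/-- from pieces to all motives of the class `Gen` -/
lemma gen_step [BraidedCategory 𝓜] [MonoidalPreadditive 𝓜] (hP : Passes T.L P) (hT : T.Facts)
    (h : ∀ (X : T.Hyp) (s i : ℕ), P i (T.prim X ⊗ pow T.L s)) {M : 𝓜} (hM : T.Gen M) (i : ℕ) :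
    P i M :=
  hP.cover i (covers_mono (covers_gen hT hM) (fun _ hN => piece_step hP hT h hN i))

/-- middle codimension: from the almost diagonal hypersurfaces to all products -/
lemma middle_step [BraidedCategory 𝓜] (hP : Passes T.L P) (hT : T.Facts) {S : Set (ℕ × ℕ)}
    (hS : EvenPairs T.p S) {ω : ℕ → ℕ} (hω : Filter.Tendsto ω Filter.atTop Filter.atTop)
    (h : ∀ X W : T.Hyp, Relation.ReflTransGen T.Susp X W → (T.dim W, T.deg W) ∈ S →
      T.dim X ≤ ω (T.dim W) → ∀ m, 2 * m = T.dim W → P m (T.mot W)) {N : ℕ} {M : 𝓜}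
    (hM : T.IsProd N M) (i : ℕ) (hi : 2 * i = N) : P i M := by
  obtain ⟨D, hD, hc, H⟩ := prod_retract hT hM
  obtain ⟨W₀, t, -, hdim, ⟨Q⟩⟩ := H 1 one_pos (Nat.coprime_one_left _)
  apply hP.untwists i t
  refine hP.retract _ Q ?_
  apply hP.retract _ (retIso (ρ_ _).symm)
  obtain ⟨N₀, hN₀⟩ := Filter.eventually_atTop.1 (hω.eventually_ge_atTop (T.dim W₀))
  obtain ⟨⟨n, d⟩, h1, ⟨r, hr⟩, h3, h4, h5, h6⟩ := hS (N₀ + T.dim W₀) ((T.p + 1) * T.deg W₀)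
    (Nat.mul_pos (Nat.succ_pos _) (hT.deg_pos W₀))
    (Nat.Coprime.mul_left (succ_coprime _) (hT.deg_coprime W₀))
  simp only at hr h3 h4 h5 h6
  refine hyp_step hP hT W₀ (n := n) (k := (n - T.dim W₀) / 2) (s := 0) h4 h5 h6 (by omega)
    (fun X' W a1 a2 a3 a4 => ?_)
  obtain ⟨R⟩ := hT.summand W
  refine hP.retract _ R (h X' W a2 ?_ ?_ _ (by omega))
  · rw [a3, a4]; exact h1
  · rw [a1, a4]; exact hN₀ n (by omega)

end Pool.Agent.Q200.HP
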