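import Pool.Agent.Q200.HS.Defs

/-!
# Motives of smooth hypersurfaces in positive characteristic: definitions
-/

open CategoryTheory MonoidalCategory

universe v u w

namespace Pool.Agent.Q200.HP

open Pool.Agent.Q28.HJ (pow)
open Pool.Agent.Q200.HS (Covers)

/-- The category `𝓜` (in the intended use: Chow motives over an algebraic closure `k` of a finite
field, with rational coefficients) and the smooth projective hypersurfaces over `k` of degrees prime to
the characteristic: their dimensions, degrees and motives. -/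
structure MotP (𝓜 : Type u) [Category.{v} 𝓜] where
  /-- the characteristic -/
  p : ℕ
  /-- the Lefschetz motive -/
  L : 𝓜
  /-- the smooth hypersurfaces `X` over `k`, of degree prime to `p`, in the projective spaces
  `ℙ^(n+1)`, `n ≥ 0` -/
  Hyp : Type w
  /-- the dimension `n` -/
  dim : Hyp → ℕ
  /-- the degree -/
  deg : Hyp → ℕ
  /-- the motive of `X` -/
  mot : Hyp → 𝓜
  /-- the *primitive motive* `M_X = (X, Δ - (1/d) ∑ h^j × h^(n-j))` of a smooth hypersurface `X` of
  dimension `n` and degree `d`; its cohomology is the primitive cohomology of `X`, of degree `n` -/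
  prim : Hyp → 𝓜
  /-- the relation `Susp X W`: `X` has the equation `f(x) = 0` of degree `d ≥ 2`, and `W` is the
  *suspension* with the equation `f(x) + y^d - z^d = 0` -/
  Susp : Hyp → Hyp → Prop

namespace MotP

variable {𝓜 : Type u} [Category.{v} 𝓜] (T : MotP.{v, u, w} 𝓜)
  [Preadditive 𝓜] [MonoidalCategory 𝓜]

/-- Known facts on the motives of smooth hypersurfaces of degrees prime to the characteristic `p` over
the algebraically closed field `k`.
* `summand`, `split`: the motive of `X` is the direct sum of `M_X` and of powers of the Lefschetz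
  motive.
* `faithful`: the Lefschetz motive is invertible.
* `join` (Shioda, Katsura): for smooth hypersurfaces `X : f(x) = 0` and `Y : g(y) = 0` of the same
  degree `d`, `M_X ⊗ M_Y ⊗ L` is a direct summand of `M_W`, `W : f(x) + g(y) = 0`.
* `points`: the unit motive is a direct summand of the primitive motive of a set of at least two
  points.
* `susp`, `susp_prop`: the case where `Y` is the set of the points `y^d = z^d` of the line.
* `cover`: for a smooth hypersurface `X : f(x) = 0`, in general coordinates, and `e ≥ 1` prime to `p`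
  the hypersurface `X' : f(x_0^e, x_1^e, …) = 0` is smooth and has a finite morphism to `X`. -/
structure Facts : Prop where
  prime : T.p.Prime
  summand : ∀ X : T.Hyp, Nonempty (Retract (T.prim X) (T.mot X))
  split : ∀ X : T.Hyp, Covers (fun N => N = T.prim X ∨ ∃ j, N = pow T.L j) (T.mot X)
  faithful : ∀ {M N : 𝓜} (f g : M ⟶ N), f ▷ T.L = g ▷ T.L → f = g
  join : ∀ X Y : T.Hyp, T.deg X = T.deg Y → ∃ W, T.deg W = T.deg X ∧
    T.dim W = T.dim X + T.dim Y + 2 ∧
      Nonempty (Retract ((T.prim X ⊗ T.prim Y) ⊗ T.L) (T.prim W))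
  points : ∃ Y : T.Hyp, T.dim Y = 0 ∧ Nonempty (Retract (𝟙_ 𝓜) (T.prim Y))
  susp : ∀ X : T.Hyp, 2 ≤ T.deg X → ∃ W, T.Susp X W
  susp_prop : ∀ X W : T.Hyp, T.Susp X W → T.deg W = T.deg X ∧
    T.dim W = T.dim X + 2 ∧ Nonempty (Retract (T.prim X ⊗ T.L) (T.prim W))
  cover : ∀ (X : T.Hyp) (e : ℕ), 0 < e → e.Coprime T.p → ∃ X', T.deg X' = T.deg X * e ∧
    T.dim X' = T.dim X ∧ Nonempty (Retract (T.prim X) (T.prim X'))
  deg_pos : ∀ X : T.Hyp, 0 < T.deg X
  deg_coprime : ∀ X : T.Hyp, (T.deg X).Coprime T.p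

/-- `M` is a tensor product of primitive motives of smooth hypersurfaces (of any dimensions, and of
any degrees prime to `p`), the sum of the dimensions being `N`. Such an `M` has cohomology only in
degree `N`. -/
inductive IsProd : ℕ → 𝓜 → Prop
  | one (X : T.Hyp) : IsProd (T.dim X) (T.prim X)
  | tensor {a b : ℕ} {M N : 𝓜} (hM : IsProd a M) (hN : IsProd b N) : IsProd (a + b) (M ⊗ N)

/-- The motives which are obtained from the motives of smooth hypersurfaces of degrees prime to `p`,
the unit motive and the Lefschetz motive by tensor products, finite direct sums and direct summands;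
so all motives `(X_1 × ⋯ × X_r, e, -j)`, `j ≥ 0`, for such hypersurfaces `X_1, …, X_r`. -/
inductive Gen : 𝓜 → Prop
  | mot (X : T.Hyp) : Gen (T.mot X)
  | unit : Gen (𝟙_ 𝓜)
  | lef : Gen T.L
  | tensor {M N : 𝓜} (hM : Gen M) (hN : Gen N) : Gen (M ⊗ N)
  | sum {M : 𝓜} {n : ℕ} (N : Fin n → 𝓜) (a : ∀ j, M ⟶ N j) (b : ∀ j, N j ⟶ M)
      (hN : ∀ j, Gen (N j)) (hab : ∑ j, a j ≫ b j = 𝟙 M) : Gen M

end MotP

/-- The set `S` of pairs `(n, d)` contains, for all `N` and all `D ≥ 1` prime to `p`, a pair `(n, d)`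
with `n ≥ N` even and `d ≥ 1` prime to `p` and divisible by `D`. -/
def EvenPairs (p : ℕ) (S : Set (ℕ × ℕ)) : Prop :=
  ∀ N D : ℕ, 0 < D → D.Coprime p → ∃ x ∈ S, Even x.1 ∧ N ≤ x.1 ∧ D ∣ x.2 ∧ 0 < x.2 ∧
    x.2.Coprime p

/-- The set `S` of pairs `(n, d)` contains, for all `N`, all `D ≥ 1` prime to `p` and for each parity,
a pair `(n, d)` with `n ≥ N` of the given parity and `d ≥ 1` prime to `p` and divisible by `D`. -/
def BothPairs (p : ℕ) (S : Set (ℕ × ℕ)) : Prop :=
  ∀ ε N D : ℕ, 0 < D → D.Coprime p → ∃ x ∈ S, x.1 % 2 = ε % 2 ∧ N ≤ x.1 ∧ D ∣ x.2 ∧ 0 < x.2 ∧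
    x.2.Coprime p

end Pool.Agent.Q200.HP
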