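import Pool.Agent.Q200.HP.Defs

/-!
# Numerically trivial cycles over finite fields: definitions
-/

open CategoryTheory MonoidalCategory

universe v u w

namespace Pool.Agent.Q200.HP

open Pool.Agent.Q28.HJ (pow)

/-- The data `MotP` for the Chow motives and the smooth hypersurfaces over an algebraic closure of a
finite field, together with the numerically trivial morphisms. -/
structure NumMot (𝓜 : Type u) [Category.{v} 𝓜] extends MotP.{v, u, w} 𝓜 where
  /-- the morphism of Chow motives is numerically trivial -/
  null : ∀ {M N : 𝓜}, (M ⟶ N) → Prop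

namespace NumMot

variable {𝓜 : Type u} [Category.{v} 𝓜] (T : NumMot.{v, u, w} 𝓜)
  [MonoidalCategory 𝓜] [Preadditive 𝓜]

/-- Rational and numerical equivalence coincide in `CH^i(M) = Hom(L^i, M)`: the numerically trivial
cycles in `CH^i(M)` are zero. -/
def RatNum (i : ℕ) (M : 𝓜) : Prop := ∀ f : pow T.L i ⟶ M, T.null f → f = 0

/-- Known facts: those of `MotP.Facts`, and the following.
* `null_comp`, `comp_null`, `null_right`: the numerically trivial morphisms form a tensor ideal.
* `dual`: Poincare duality, `Hom(M_W, N) = Hom(L^n, M_W ⊗ N)` for a smooth hypersurface `W` of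
  dimension `n` and every motive `N`, compatible with numerical equivalence.
* `frob`: let `M` be a tensor product of primitive motives, of weight `N`, and `a ∈ CH^i(M)`,
  `2 i ≠ N`. Take a finite field with `q` elements over which `M` and `a` are defined, the Frobenius
  endomorphism `F` and its characteristic polynomial `P` on the cohomology of `M`, which is of degree
  `N`. Then `P(F)` is homologically, hence numerically, trivial. As `F` acts on `CH^i` as the
  multiplication by `q^i`, it maps `a` to `P(q^i) a`, and `P(q^i) ≠ 0` by the theorem of Deligne. -/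
structure Facts [Linear ℚ 𝓜] : Prop where
  base : T.toMotP.Facts
  null_comp : ∀ {M N P : 𝓜} (f : M ⟶ N) (g : N ⟶ P), T.null f → T.null (f ≫ g)
  comp_null : ∀ {M N P : 𝓜} (f : M ⟶ N) (g : N ⟶ P), T.null g → T.null (f ≫ g)
  null_right : ∀ {M N : 𝓜} (f : M ⟶ N) (P : 𝓜), T.null f → T.null (f ▷ P)
  dual : ∀ (W : T.Hyp) (N : 𝓜), T.RatNum (T.dim W) (T.prim W ⊗ N) →
    ∀ g : T.prim W ⟶ N, T.null g → g = 0
  frob : ∀ {N : ℕ} {M : 𝓜}, T.IsProd N M → ∀ i, 2 * i ≠ N → ∀ a : pow T.L i ⟶ M,
    ∃ (g : M ⟶ M) (c : ℚ), T.null g ∧ c ≠ 0 ∧ a ≫ g = c • a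

end NumMot

end Pool.Agent.Q200.HP
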