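import Pool.Agent.Q200.HP.NDefs
import Pool.Agent.Q200.HP.Base

/-!
# Rational and numerical equivalence on products of hypersurfaces over finite fields
-/

open CategoryTheory MonoidalCategory

universe v u w

namespace Pool.Agent.Q200.HP

open Pool.Agent.Q28.HJ (pow powAdd retRight retLeft retIso shuffle faithful_pow)
open Pool.Agent.Q200.HS (Covers covers_of_retract covers_self covers_mono covers_trans
  covers_tensor Passes)

namespace NumMot

variable {𝓜 : Type u} [Category.{v} 𝓜] [Preadditive 𝓜] [MonoidalCategory 𝓜]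
  [MonoidalPreadditive 𝓜] [Linear ℚ 𝓜] {T : NumMot.{v, u, w} 𝓜}

lemma passes (hT : T.Facts) : Passes T.L T.RatNum where
  cover i M h := by
    obtain ⟨n, N, a, b, h1, h2⟩ := h
    intro f hf
    have h3 : f = f ≫ 𝟙 M := (Category.comp_id _).symm
    rw [h3, ← h2, Preadditive.comp_sum]
    exact Finset.sum_eq_zero (fun j _ => by
      rw [← Category.assoc, h1 j _ (hT.null_comp f (a j) hf), Limits.zero_comp])
  untwist i M h := by
    intro f hf
    apply hT.base.faithful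
    rw [MonoidalPreadditive.zero_whiskerRight]
    exact h (f ▷ T.L) (hT.null_right f _ hf)

variable [BraidedCategory 𝓜]

/-- null morphisms out of a twisted product -/
lemma null_out (hT : T.Facts) {a : ℕ} {M : 𝓜} (hM : T.IsProd a M) (s : ℕ) {N : 𝓜}
    (h : ∀ (W : T.Hyp) (t : ℕ), T.dim W = a + 2 * (s + t) →
      T.RatNum (T.dim W) (T.prim W ⊗ (N ⊗ pow T.L t)))
    (f : M ⊗ pow T.L s ⟶ N) (hf : T.null f) : f = 0 := by
  obtain ⟨s₀, H⟩ := retract_large hT.base hM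
  obtain ⟨W, h1, ⟨R⟩⟩ := H (s + s₀) (by omega)
  have e : M ⊗ pow T.L (s + s₀) ≅ (M ⊗ pow T.L s) ⊗ pow T.L s₀ :=
    (tensorLeft M).mapIso (powAdd T.L _ _) ≪≫ (α_ _ _ _).symm
  have key : R.r ≫ e.hom ≫ f ▷ pow T.L s₀ = 0 :=
    hT.dual W (N ⊗ pow T.L s₀) (h W s₀ h1) _
      (hT.comp_null _ _ (hT.comp_null _ _ (hT.null_right _ _ hf)))
  apply faithful_pow hT.base.faithful s₀
  rw [MonoidalPreadditive.zero_whiskerRight]
  have e3 : f ▷ pow T.L s₀ = e.inv ≫ R.i ≫ (R.r ≫ e.hom ≫ f ▷ pow T.L s₀) := by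
    simp only [R.retract_assoc, Iso.inv_hom_id_assoc]
  rw [e3, key]
  simp

/-- from the middle codimension to all codimensions -/
lemma explicit (hT : T.Facts)
    (h : ∀ (N : ℕ) (M : 𝓜), T.IsProd N M → ∀ i, 2 * i = N → T.RatNum i M) {N : ℕ} {M : 𝓜}
    (hM : T.IsProd N M) (i : ℕ) (hi : 2 * i ≠ N) (f : pow T.L i ⟶ M) : f = 0 := by
  have hP := passes hT
  obtain ⟨g, c, hg, hc, hfg⟩ := hT.frob hM i hi f
  have h0 : g = 0 := by
    let ρ : M ⊗ pow T.L 0 ≅ M := ρ_ M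
    have h1 : ρ.hom ≫ g = 0 := by
      refine null_out hT hM 0 (N := M) ?_ _ (hT.comp_null _ _ hg)
      intro W t hW
      -- `M ⊗ L^t` is dominated by a hypersurface
      obtain ⟨s₀, H⟩ := retract_large hT.base hM
      obtain ⟨V, h2, ⟨R⟩⟩ := H (t + s₀) (by omega)
      apply hP.untwists _ s₀
      have e : (T.prim W ⊗ (M ⊗ pow T.L t)) ⊗ pow T.L s₀ ≅ T.prim W ⊗ (M ⊗ pow T.L (t + s₀)) :=
        α_ _ _ _ ≪≫ (tensorLeft _).mapIso (α_ _ _ _ ≪≫
          (tensorLeft M).mapIso (powAdd T.L _ _).symm)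
      refine hP.retract _ ((retIso e).trans (retLeft R _)) ?_
      exact h _ _ (.tensor (.one W) (.one V)) _ (by omega)
    have h2 : g = ρ.inv ≫ ρ.hom ≫ g := by simp
    rw [h2, h1, Limits.comp_zero]
  rw [h0, Limits.comp_zero] at hfg
  rcases smul_eq_zero.1 hfg.symm with h3 | h3
  · exact absurd h3 hc
  · exact h3

/-- all motives of the class `Gen` -/
lemma gen_all (hT : T.Facts)
    (h : ∀ (N : ℕ) (M : 𝓜), T.IsProd N M → (∀ i, 2 * i ≠ N → ∀ f : pow T.L i ⟶ M, f = 0) ∧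
      ∀ i, 2 * i = N → T.RatNum i M) {M : 𝓜} (hM : T.Gen M) (i : ℕ) : T.RatNum i M := by
  refine gen_step (passes hT) hT.base (fun X s i => ?_) hM i
  refine hyp_step (passes hT) hT.base X (n := T.dim X + 2 * (s + 0)) (k := 0)
    (d := (T.p + 1) * T.deg X) (dvd_refl _)
    (Nat.mul_pos (Nat.succ_pos _) (hT.base.deg_pos X))
    (Nat.Coprime.mul_left (succ_coprime _) (hT.base.deg_coprime X)) rfl
    (fun X' W _ _ _ _ => ?_)
  by_cases e : 2 * (i + 0) = T.dim W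
  · exact (h _ _ (.one W)).2 _ e
  · exact fun f _ => (h _ _ (.one W)).1 _ e f

/-- all numerically trivial morphisms -/
lemma morphisms (hT : T.Facts) (h : ∀ M : 𝓜, T.Gen M → ∀ i, T.RatNum i M) {M N : 𝓜}
    (hM : T.Gen M) (hN : T.Gen N) (f : M ⟶ N) (hf : T.null f) : f = 0 := by
  obtain ⟨n, A, a, b, h1, h2⟩ := covers_gen hT.base hM
  have h3 : f = 𝟙 M ≫ f := (Category.id_comp _).symm
  rw [h3, ← h2, Preadditive.sum_comp]
  refine Finset.sum_eq_zero (fun j _ => ?_)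
  obtain ⟨k, s, M', hM', ⟨R⟩⟩ := h1 j
  have key : R.r ≫ b j ≫ f = 0 := by
    refine null_out hT hM' s ?_ _ (hT.comp_null _ _ (hT.comp_null _ _ hf))
    intro W t _
    exact h _ (.tensor (gen_isProd hT.base (.one W)) (.tensor hN (gen_pow t))) _
  have e : b j ≫ f = R.i ≫ (R.r ≫ b j ≫ f) := by simp
  rw [Category.assoc, e, key]
  simp

/-- main theorem -/
theorem final (hT : T.Facts) (S : Set (ℕ × ℕ)) (hS : EvenPairs T.p S) (ω : ℕ → ℕ)
    (hω : Filter.Tendsto ω Filter.atTop Filter.atTop) :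
    [∀ X W : T.Hyp, Relation.ReflTransGen T.Susp X W → (T.dim W, T.deg W) ∈ S →
        T.dim X ≤ ω (T.dim W) → ∀ m, 2 * m = T.dim W → T.RatNum m (T.mot W),
      ∀ (N : ℕ) (M : 𝓜), T.IsProd N M → (∀ i, 2 * i ≠ N → ∀ f : pow T.L i ⟶ M, f = 0) ∧
        ∀ i, 2 * i = N → T.RatNum i M,
      ∀ M : 𝓜, T.Gen M → ∀ i, T.RatNum i M,
      ∀ M N : 𝓜, T.Gen M → T.Gen N → ∀ f : M ⟶ N, T.null f → f = 0].TFAE := by
  tfae_have 1 → 2 := by
    intro h
    have hmid : ∀ (N : ℕ) (M : 𝓜), T.IsProd N M → ∀ i, 2 * i = N → T.RatNum i M :=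
      fun N M hM i hi => middle_step (passes hT) hT.base hS hω h hM i hi
    exact fun N M hM => ⟨fun i hi f => explicit hT hmid hM i hi f, hmid N M hM⟩
  tfae_have 2 → 3 := fun h M hM i => gen_all hT h hM i
  tfae_have 3 → 4 := fun h M N hM hN f hf => morphisms hT h hM hN f hf
  tfae_have 4 → 1 := fun h X W _ _ _ m _ f hf => h _ _ (gen_pow m) (.mot W) f hf
  tfae_finish

end NumMot

end Pool.Agent.Q200.HP
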