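import Pool.Agent.Q200.HP.PDefs
import Pool.Agent.Q200.HP.Num

/-!
# Motivic cohomology of products of hypersurfaces
-/

open CategoryTheory MonoidalCategory

universe v u w w'

namespace Pool.Agent.Q200.HP

open Pool.Agent.Q28.HJ (pow powAdd retRight retLeft retIso shuffle faithful_pow)
open Pool.Agent.Q200.HS (Covers covers_of_retract covers_self covers_mono covers_trans
  covers_tensor Passes)

section

variable {𝓜 : Type u} [Category.{v} 𝓜] [MonoidalCategory 𝓜] [Preadditive 𝓜] {L : 𝓜}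
  {H : Motivic.{v, u, w'} 𝓜 L}

namespace Motivic

lemma push_zero (hH : H.Laws) (j i : ℕ) {M N : 𝓜} (g : M ⟶ N) :
    H.push j i g (0 : H.H j i M) = 0 := by
  have := hH.add j i g 0 0
  rw [add_zero] at this
  exact left_eq_add.1 this

lemma zero_push (hH : H.Laws) (j i : ℕ) {M N : 𝓜} (x : H.H j i M) :
    H.push j i (0 : M ⟶ N) x = 0 := by
  have := hH.hom_add j i (0 : M ⟶ N) 0 x
  rw [add_zero] at this
  exact left_eq_add.1 this

lemma sum_push (hH : H.Laws) (j i : ℕ) {M N : 𝓜} (x : H.H j i M) {n : ℕ} (f : Fin n → (M ⟶ N)) :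
    H.push j i (∑ k, f k) x = ∑ k, H.push j i (f k) x := by
  induction n with
  | zero => simpa using zero_push hH j i x
  | succ n ih => rw [Fin.sum_univ_succ, Fin.sum_univ_succ, hH.hom_add, ih]

lemma passes (hH : H.Laws) (j : ℕ) : Passes L (H.Zero j) where
  cover i M h := by
    obtain ⟨n, N, a, b, h1, h2⟩ := h
    intro x
    rw [← hH.id j i x, ← h2, sum_push hH]
    exact Finset.sum_eq_zero (fun k _ => by rw [hH.comp, h1 k (H.push j i (a k) x), push_zero hH])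
  untwist i M h := fun x => hH.tw_inj j i x 0 (by rw [h (H.tw j i x), h (H.tw j i 0)])

end Motivic

end

namespace NumMot

variable {𝓜 : Type u} [Category.{v} 𝓜] [Preadditive 𝓜] [MonoidalCategory 𝓜]
  [MonoidalPreadditive 𝓜] [Linear ℚ 𝓜] [BraidedCategory 𝓜] {T : NumMot.{v, u, w} 𝓜}
  {H : Motivic.{v, u, w'} 𝓜 T.L}

/-- a null endomorphism of a product is zero -/
lemma null_end (hT : T.Facts)
    (h : ∀ (N : ℕ) (M : 𝓜), T.IsProd N M → ∀ i, 2 * i = N → T.RatNum i M) {N : ℕ} {M : 𝓜}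
    (hM : T.IsProd N M) (g : M ⟶ M) (hg : T.null g) : g = 0 := by
  have hP := passes hT
  let ρ : M ⊗ pow T.L 0 ≅ M := ρ_ M
  have h1 : ρ.hom ≫ g = 0 := by
    refine null_out hT hM 0 (N := M) ?_ _ (hT.comp_null _ _ hg)
    intro W t hW
    obtain ⟨s₀, H⟩ := retract_large hT.base hM
    obtain ⟨V, h2, ⟨R⟩⟩ := H (t + s₀) (by omega)
    apply hP.untwists _ s₀
    have e : (T.prim W ⊗ (M ⊗ pow T.L t)) ⊗ pow T.L s₀ ≅ T.prim W ⊗ (M ⊗ pow T.L (t + s₀)) :=
      α_ _ _ _ ≪≫ (tensorLeft _).mapIso (α_ _ _ _ ≪≫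
        (tensorLeft M).mapIso (powAdd T.L _ _).symm)
    refine hP.retract _ ((retIso e).trans (retLeft R _)) ?_
    exact h _ _ (.tensor (.one W) (.one V)) _ (by omega)
  have h2 : g = ρ.inv ≫ ρ.hom ≫ g := by simp
  rw [h2, h1, Limits.comp_zero]

/-- main theorem on perfectness -/
theorem perfect (hT : T.Facts) (hH : H.Laws)
    (hfrob : T.FrobOn H)
    (S : Set (ℕ × ℕ)) (hS : EvenPairs T.p S) (ω : ℕ → ℕ)
    (hω : Filter.Tendsto ω Filter.atTop Filter.atTop) :
    [∀ X W : T.Hyp, Relation.ReflTransGen T.Susp X W → (T.dim W, T.deg W) ∈ S →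
        T.dim X ≤ ω (T.dim W) → ∀ m, 2 * m = T.dim W →
          T.RatNum m (T.mot W) ∧ ∀ j, 1 ≤ j → H.Zero j m (T.mot W),
      ∀ (N : ℕ) (M : 𝓜), T.IsProd N M →
        (∀ i, 2 * i ≠ N → (∀ f : pow T.L i ⟶ M, f = 0) ∧ ∀ j, 1 ≤ j → H.Zero j i M) ∧
          ∀ i, 2 * i = N → T.RatNum i M ∧ ∀ j, 1 ≤ j → H.Zero j i M,
      ∀ M : 𝓜, T.Gen M → ∀ i, T.RatNum i M ∧ ∀ j, 1 ≤ j → H.Zero j i M].TFAE := by
  have key : ∀ j, 1 ≤ j → (∀ (N : ℕ) (M : 𝓜), T.IsProd N M → ∀ i, H.Zero j i M) →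
      ∀ M : 𝓜, T.Gen M → ∀ i, H.Zero j i M := by
    intro j _ h M hM i
    refine gen_step (Motivic.passes hH j) hT.base (fun X s i => ?_) hM i
    refine hyp_step (Motivic.passes hH j) hT.base X (n := T.dim X + 2 * (s + 0)) (k := 0)
      (d := (T.p + 1) * T.deg X) (dvd_refl _)
      (Nat.mul_pos (Nat.succ_pos _) (hT.base.deg_pos X))
      (Nat.Coprime.mul_left (succ_coprime _) (hT.base.deg_coprime X)) rfl
      (fun X' W _ _ _ _ => h _ _ (.one W) _)
  tfae_have 1 → 2 := by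
    intro h N M hM
    have hmid : ∀ (N : ℕ) (M : 𝓜), T.IsProd N M → ∀ i, 2 * i = N → T.RatNum i M :=
      fun N M hM i hi => middle_step (passes hT) hT.base hS hω
        (fun X W a b c m hm => (h X W a b c m hm).1) hM i hi
    refine ⟨fun i hi => ⟨fun f => explicit hT hmid hM i hi f, fun j _ x => ?_⟩,
      fun i hi => ⟨hmid N M hM i hi, fun j hj => ?_⟩⟩
    · obtain ⟨g, c, hg, hc, hx⟩ := hfrob hM j i hi x
      rw [null_end hT hmid hM g hg, Motivic.zero_push hH] at hx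
      rcases smul_eq_zero.1 hx.symm with h3 | h3
      · exact absurd h3 hc
      · exact h3
    · exact middle_step (Motivic.passes hH j) hT.base hS hω
        (fun X W a b c m hm => (h X W a b c m hm).2 j hj) hM i hi
  tfae_have 2 → 3 := by
    intro h M hM i
    refine ⟨?_, fun j hj => ?_⟩
    · exact gen_all hT (fun N M hM => ⟨fun i hi => ((h N M hM).1 i hi).1,
        fun i hi => ((h N M hM).2 i hi).1⟩) hM i
    · refine key j hj (fun N M hM i => ?_) M hM i
      by_cases hi : 2 * i = N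
      · exact ((h N M hM).2 i hi).2 j hj
      · exact ((h N M hM).1 i hi).2 j hj
  tfae_have 3 → 1 := fun h X W _ _ _ m _ => h _ (.mot W) m
  tfae_finish

end NumMot

end Pool.Agent.Q200.HP
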